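import Pool.Agent.H97.OC.Stmts
import Pool.Agent.H32.Dense.Conf

/-!
# OC, row QNT: the label of a line
-/

set_option autoImplicit false

namespace Pool.OC

open Finset Real
open Pool.Agent.H49.Ent Pool.Agent.H32.Dense Pool.STK Pool.KAF

namespace QNT

variable {W S : Type} [Fintype W]

theorem Pr_sum (q : W → ℝ) (E : Set W) [DecidablePred (· ∈ E)] :
    Pr q E = ∑ w, if w ∈ E then q w else 0 := by
  unfold Pr law
  refine Finset.sum_congr rfl fun w _ => ?_
  by_cases h : w ∈ E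
  · rw [if_pos h, if_pos (by simpa using h)]
  · rw [if_neg h, if_neg (by simpa using h)]

theorem Pr_nonneg' {q : W → ℝ} (hq : ∀ w, 0 ≤ q w) (E : Set W) : 0 ≤ Pr q E := by
  unfold Pr
  exact law_nonneg hq _ _

theorem Pr_mono' {q : W → ℝ} (hq : ∀ w, 0 ≤ q w) {E E' : Set W}
    (h : ∀ w, 0 < q w → w ∈ E → w ∈ E') : Pr q E ≤ Pr q E' := by
  classical
  rw [Pr_sum, Pr_sum]
  refine Finset.sum_le_sum fun w _ => ?_
  rcases (hq w).eq_or_lt with h0 | h0
  · rw [← h0]
    split_ifs <;> exact le_rfl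
  · by_cases h1 : w ∈ E
    · rw [if_pos h1, if_pos (h w h0 h1)]
    · rw [if_neg h1]
      split_ifs
      exacts [hq w, le_rfl]

/-- The mean of the conditional probabilities. -/
theorem mean_cond {q : W → ℝ} (hq : ∀ w, 0 ≤ q w) (Y : W → S) (E : Set W) :
    ∑ w, q w * Pr (Pool.Agent.H49.Ent.cond q Y (Y w)) E = Pr q E := by
  classical
  have h1 : ∀ w, q w * Pr (Pool.Agent.H49.Ent.cond q Y (Y w)) E =
      ∑ v, (if v ∈ E then (if Y v = Y w then q w * (q v / law q Y (Y v)) else 0) else 0) := by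
    intro w
    rw [Pr_sum, Finset.mul_sum]
    refine Finset.sum_congr rfl fun v _ => ?_
    unfold Pool.Agent.H49.Ent.cond
    by_cases h2 : v ∈ E
    · rw [if_pos h2, if_pos h2]
      by_cases h3 : Y v = Y w
      · rw [if_pos h3, if_pos h3, h3]
      · rw [if_neg h3, if_neg h3, mul_zero]
    · rw [if_neg h2, if_neg h2, mul_zero]
  rw [Finset.sum_congr rfl fun w _ => h1 w, Finset.sum_comm, Pr_sum]
  refine Finset.sum_congr rfl fun v _ => ?_
  by_cases h2 : v ∈ E
  · simp only [if_pos h2]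
    have h3 : ∑ w, (if Y v = Y w then q w * (q v / law q Y (Y v)) else 0) =
        law q Y (Y v) * (q v / law q Y (Y v)) := by
      conv_rhs => unfold law
      rw [Finset.sum_mul]
      refine Finset.sum_congr rfl fun w _ => ?_
      by_cases h4 : Y v = Y w
      · rw [if_pos h4, if_pos h4.symm]
        rfl
      · rw [if_neg h4, if_neg (fun h => h4 h.symm), zero_mul]
    rw [h3]
    rcases (hq v).eq_or_lt with h0 | h0
    · rw [← h0, zero_div, mul_zero]
    · have := law_pos hq Y h0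
      field_simp
  · simp only [if_neg h2]
    exact Finset.sum_const_zero

theorem markov' {q : W → ℝ} (hq : ∀ w, 0 ≤ q w) {f : W → ℝ} (hf : ∀ w, 0 ≤ f w) (a : ℝ) :
    a * Pr q {w | a < f w} ≤ ∑ w, q w * f w := by
  classical
  rw [Pr_sum, Finset.mul_sum]
  refine Finset.sum_le_sum fun w _ => ?_
  by_cases h : w ∈ {w | a < f w}
  · rw [if_pos h, mul_comm]
    exact mul_le_mul_of_nonneg_left (le_of_lt h) (hq w)
  · rw [if_neg h, mul_zero]
    exact mul_nonneg (hq w) (hf w)

end QNT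

open QNT

theorem Dat.fq_anti (d : Dat) (hP : ∀ ω, 0 ≤ d.P ω) (n : ℕ) (l : d.Lam) {a a' : ℝ} (h : a ≤ a') :
    d.fq n l a' ≤ d.fq n l a := by
  classical
  unfold Dat.fq
  refine Finset.sum_le_sum fun i _ => ?_
  have h0 : ∀ w, 0 ≤ Pool.Agent.H49.Ent.cond (d.Qp i) (fun w => d.L w.1) l w :=
    fun w => cond_nonneg (fun w => dbl_nonneg hP w) _ _ w
  refine Pr_mono' h0 fun w _ hw => ?_
  have h1 : a' * |d.ta w| < |d.sg w| := hw
  exact lt_of_le_of_lt (mul_le_mul_of_nonneg_right h (abs_nonneg _)) h1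

theorem qnt_thm : QNTStmt := by
  classical
  intro d A n d₁ ε hOK hn hd₁ hti
  have hP := hOK.law.nonneg
  have hQ : ∀ i w, 0 ≤ d.Qp i w := fun i w => dbl_nonneg hP w
  set F : d.Lam → Finset ℤ := fun l =>
    (Finset.Icc (-(4 * n : ℤ)) (2 * n)).filter fun k => d.fq n l ((2 : ℝ) ^ (1 - k)) ≤ d₁ * n
    with hF
  set m : d.Lam → ℤ := fun l => if h : (F l).Nonempty then (F l).max' h else -(4 * n : ℤ) with hm
  have hmem : ∀ l, (F l).Nonempty → m l ∈ F l := by
    intro l h
    simp only [hm]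
    rw [dif_pos h]
    exact Finset.max'_mem _ h
  have hrange : ∀ l, -(4 * n : ℤ) ≤ m l ∧ m l ≤ 2 * n := by
    intro l
    by_cases h : (F l).Nonempty
    · have h1 := (Finset.mem_filter.mp (hmem l h)).1
      exact Finset.mem_Icc.mp h1
    · simp only [hm]
      rw [dif_neg h]
      constructor
      · exact le_rfl
      · omega
  refine ⟨m, hrange, ?_, ?_⟩
  · -- lines without any good level
    set f : d.Om → ℝ := fun ω => ∑ i ∈ range n,
      Pr (Pool.Agent.H49.Ent.cond (d.Qp i) (fun w => d.L w.1) (d.L ω))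
        {w | |d.ta w| < (2 : ℝ) ^ (-(4 * n : ℤ))} with hf
    have hf0 : ∀ ω, 0 ≤ f ω := fun ω => Finset.sum_nonneg fun i _ =>
      Pr_nonneg' (fun w => cond_nonneg (hQ i) _ _ w) _
    have h1 : Pr d.P {ω | d₁ * n < d.fq n (d.L ω) ((2 : ℝ) ^ (1 - m (d.L ω)))} ≤
        Pr d.P {ω | d₁ * n < f ω} := by
      refine Pr_mono' hP fun ω _ hω => ?_
      have h2 : d₁ * n < d.fq n (d.L ω) ((2 : ℝ) ^ (1 - m (d.L ω))) := hω
      have h3 : ¬ (F (d.L ω)).Nonempty := by
        intro h4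
        have h5 := (Finset.mem_filter.mp (hmem _ h4)).2
        exact absurd h2 (not_lt.mpr h5)
      have h4 : m (d.L ω) = -(4 * n : ℤ) := by
        simp only [hm]
        rw [dif_neg h3]
      rw [h4] at h2
      refine lt_of_lt_of_le h2 ?_
      show d.fq n (d.L ω) ((2 : ℝ) ^ (1 - -(4 * n : ℤ))) ≤ f ω
      unfold Dat.fq
      simp only [hf]
      refine Finset.sum_le_sum fun i _ => ?_
      refine Pr_mono' (fun w => cond_nonneg (hQ i) _ _ w) fun w _ hw => ?_
      have h5 : (2 : ℝ) ^ (1 - -(4 * n : ℤ)) * |d.ta w| < |d.sg w| := hw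
      have h6 : |d.sg w| ≤ 2 := by
        unfold Dat.sg
        refine (abs_sub _ _).trans ?_
        have := hOK.hS (d.T w.1)
        have := hOK.hS (d.T w.2)
        linarith
      show |d.ta w| < (2 : ℝ) ^ (-(4 * n : ℤ))
      have h7 : (2 : ℝ) ^ (1 - -(4 * n : ℤ)) = 2 * (2 : ℝ) ^ (4 * n : ℤ) := by
        rw [sub_neg_eq_add, zpow_add₀ two_ne_zero, zpow_one]
      rw [h7] at h5
      have h8 : (0 : ℝ) < (2 : ℝ) ^ (4 * n : ℤ) := by positivity
      rw [zpow_neg, ← one_div, lt_div_iff₀ h8]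
      linarith
    refine h1.trans ?_
    have hn' : (0 : ℝ) < n := by exact_mod_cast hn
    have h2 := markov' hP hf0 (d₁ * n)
    have h3 : ∑ ω, d.P ω * f ω ≤ n * ε := by
      have e1 : ∀ i ∈ range n, ∑ ω, d.P ω *
          Pr (Pool.Agent.H49.Ent.cond (d.Qp i) (fun w => d.L w.1) (d.L ω))
            {w | |d.ta w| < (2 : ℝ) ^ (-(4 * n : ℤ))} ≤ ε := by
        intro i hi
        have e2 := (dbl_fst (b := fun ω => (d.L ω, d.Ti i ω)) hP).ex (fun ω =>
          Pr (Pool.Agent.H49.Ent.cond (d.Qp i) (fun w => d.L w.1) (d.L ω))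
            {w | |d.ta w| < (2 : ℝ) ^ (-(4 * n : ℤ))})
        unfold Ex at e2
        rw [← e2]
        exact (mean_cond (hQ i) (fun w => d.L w.1) _).le.trans (hti i (Finset.mem_range.mp hi))
      calc ∑ ω, d.P ω * f ω = ∑ i ∈ range n, ∑ ω, d.P ω *
          Pr (Pool.Agent.H49.Ent.cond (d.Qp i) (fun w => d.L w.1) (d.L ω))
            {w | |d.ta w| < (2 : ℝ) ^ (-(4 * n : ℤ))} := by
            rw [Finset.sum_comm]
            refine Finset.sum_congr rfl fun ω _ => ?_
            simp only [hf]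
            rw [Finset.mul_sum]
        _ ≤ ∑ i ∈ range n, ε := Finset.sum_le_sum e1
        _ = n * ε := by rw [Finset.sum_const, Finset.card_range, nsmul_eq_mul]
    rw [le_div_iff₀ hd₁]
    have h4 : d₁ * n * Pr d.P {ω | d₁ * n < f ω} ≤ n * ε := h2.trans h3
    have h5 : n * (Pr d.P {ω | d₁ * n < f ω} * d₁) ≤ n * ε := by linarith
    exact le_of_mul_le_mul_left h5 hn'
  · -- maximality
    intro ω hω hlt
    by_contra hno
    push Not at hno
    have h1 : m (d.L ω) + 1 ∈ F (d.L ω) := by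
      refine Finset.mem_filter.mpr ⟨Finset.mem_Icc.mpr ⟨?_, ?_⟩, ?_⟩
      · have := (hrange (d.L ω)).1
        omega
      · omega
      · have e1 : 1 - (m (d.L ω) + 1) = -m (d.L ω) := by ring
        rw [e1]
        exact hno
    have h2 : (F (d.L ω)).Nonempty := ⟨_, h1⟩
    have h3 : m (d.L ω) + 1 ≤ m (d.L ω) := by
      conv_rhs => rw [hm]
      simp only
      rw [dif_pos h2]
      exact Finset.le_max' _ _ h1
    omega

end Pool.OC
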