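import Pool.Agent.H14.OC.Qnt
import Pool.Agent.H70.OC.Tel

/-!
# OC, row TIM: the distances of the times of pairs
-/

set_option autoImplicit false

namespace Pool.OC

open Finset Real
open Pool.Agent.H49.Ent Pool.Agent.H32.Dense Pool.STK Pool.KAF QNT

namespace TIM

/-- The digits of a number: prefix. -/
theorem floor_pre (x : ℝ) (i k : ℕ) :
    ⌊(2 : ℝ) ^ i * x⌋ = ⌊(2 : ℝ) ^ (i + k) * x⌋ / 2 ^ k := by
  have h : (2 : ℝ) ^ i * x = ((2 : ℝ) ^ (i + k) * x) / ((2 ^ k : ℕ) : ℝ) := by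
    rw [pow_add]
    push_cast
    field_simp
  rw [h, Int.floor_div_natCast]
  push_cast
  rfl

theorem floor_mem (x : ℝ) (i k : ℕ) :
    ⌊(2 : ℝ) ^ (i + k) * x⌋ ∈ Finset.Ico (2 ^ k * ⌊(2 : ℝ) ^ i * x⌋)
      (2 ^ k * (⌊(2 : ℝ) ^ i * x⌋ + 1)) := by
  have h := floor_pre x i k
  have h2 : (0 : ℤ) < 2 ^ k := by positivity
  generalize ⌊(2 : ℝ) ^ (i + k) * x⌋ = a at h ⊢
  rw [h]
  refine Finset.mem_Ico.mpr ⟨?_, ?_⟩
  · rw [mul_comm]
    exact Int.ediv_mul_le _ h2.ne'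
  · rw [mul_comm]
    exact Int.lt_ediv_add_one_mul_self _ h2

theorem card_blk (k : ℕ) (t : ℤ) :
    (Finset.Ico (2 ^ k * t) (2 ^ k * (t + 1))).card = 2 ^ k := by
  rw [Int.card_Ico]
  have : (2 ^ k * (t + 1) - 2 ^ k * t : ℤ) = ((2 ^ k : ℕ) : ℤ) := by
    push_cast
    ring
  rw [this, Int.toNat_natCast]

variable (d : Dat)

/-- The entropy of the first digits of the time, given the line. -/
noncomputable def D (i : ℕ) : ℝ := CH d.P (d.Ti i) d.L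

/-- The deficit. -/
noncomputable def df (i : ℕ) : ℝ := i * Real.log 2 - D d i

variable {d}

theorem CH_pair (hP : ∀ ω, 0 ≤ d.P ω) (i k : ℕ) :
    CH d.P (d.Ti (i + k)) (fun ω => (d.L ω, d.Ti i ω)) = D d (i + k) - D d i := by
  have h1 := CH_chain hP (d.Ti (i + k)) (d.Ti i) d.L
  have h2 : CH d.P (fun ω => (d.Ti (i + k) ω, d.Ti i ω)) d.L = CH d.P (d.Ti (i + k)) d.L := by
    refine CH_congr hP ?_ ?_ (fun _ _ _ _ h => h) (fun _ _ _ _ h => h)
    · intro ω ω' _ _ h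
      simp only [Prod.mk.injEq] at h
      exact h.1.1
    · intro ω ω' _ _ h
      simp only [Prod.mk.injEq] at h
      refine Prod.ext h.1 ?_
      show ⌊(2 : ℝ) ^ i * d.th (d.T ω)⌋ = ⌊(2 : ℝ) ^ i * d.th (d.T ω')⌋
      rw [floor_pre _ i k, floor_pre _ i k]
      have h3 : ⌊(2 : ℝ) ^ (i + k) * d.th (d.T ω)⌋ = ⌊(2 : ℝ) ^ (i + k) * d.th (d.T ω')⌋ := h.1
      rw [h3]
  have h3 : CH d.P (d.Ti (i + k)) (fun ω => (d.Ti i ω, d.L ω)) =
      CH d.P (d.Ti (i + k)) (fun ω => (d.L ω, d.Ti i ω)) := by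
    refine CH_congr hP ?_ ?_ ?_ ?_ <;>
    · intro ω ω' _ _ h
      simp only [Prod.mk.injEq] at h ⊢
      tauto
  unfold D
  rw [h2, h3] at h1
  linarith

theorem D_le (hOK : IsLaw d.P) (i k : ℕ) : D d (i + k) ≤ D d i + k * Real.log 2 := by
  classical
  have h1 := CH_pair (d := d) hOK.nonneg i k
  have h2 := CH_le_card hOK.nonneg hOK.sum_one (d.Ti (i + k)) (fun ω => (d.L ω, d.Ti i ω))
    (fun z => Finset.Ico (2 ^ k * z.2) (2 ^ k * (z.2 + 1))) (fun ω _ => floor_mem _ i k)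
  have h3 : Ex d.P (fun ω => Real.log ((Finset.Ico (2 ^ k * d.Ti i ω)
      (2 ^ k * (d.Ti i ω + 1))).card : ℝ)) = k * Real.log 2 := by
    have h4 : (fun ω => Real.log ((Finset.Ico (2 ^ k * d.Ti i ω)
      (2 ^ k * (d.Ti i ω + 1))).card : ℝ)) = fun _ => k * Real.log 2 := by
      funext ω
      rw [card_blk]
      push_cast
      rw [Real.log_pow]
    rw [h4, Ex_const hOK.sum_one]
  have h5 : CH d.P (d.Ti (i + k)) (fun ω => (d.L ω, d.Ti i ω)) ≤ k * Real.log 2 :=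
    h2.trans h3.le
  linarith

theorem df_mono (hOK : IsLaw d.P) (i k : ℕ) : df d i ≤ df d (i + k) := by
  have := D_le hOK i k
  unfold df
  push_cast
  linarith

theorem D_zero (A : ℕ) (hOK : d.OK A) : D d 0 = 0 := by
  unfold D
  refine CH_eq_zero hOK.law.nonneg fun ω ω' _ _ _ => ?_
  show ⌊(2 : ℝ) ^ 0 * d.th (d.T ω)⌋ = ⌊(2 : ℝ) ^ 0 * d.th (d.T ω')⌋
  have h1 : ∀ t, ⌊(2 : ℝ) ^ 0 * d.th t⌋ = 0 := by
    intro t
    rw [pow_zero, one_mul, Int.floor_eq_zero_iff]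
    exact hOK.hth t
  rw [h1, h1]

theorem Pr_compl' {W : Type} [Fintype W] {q : W → ℝ} (hq : ∑ w, q w = 1) (E : Set W) :
    Pr q E + Pr q Eᶜ = 1 := by
  classical
  rw [Pr_sum, Pr_sum, ← Finset.sum_add_distrib, ← hq]
  refine Finset.sum_congr rfl fun w _ => ?_
  by_cases h : w ∈ E
  · have h' : w ∉ Eᶜ := fun h' => h' h
    rw [if_pos h, if_neg h', add_zero]
  · have h' : w ∈ Eᶜ := h
    rw [if_neg h, if_pos h', zero_add]

theorem Qp_law (hOK : IsLaw d.P) (i : ℕ) : IsLaw (d.Qp i) := by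
  refine ⟨fun w => dbl_nonneg hOK.nonneg w, ?_⟩
  have h := (dbl_fst (b := fun ω => (d.L ω, d.Ti i ω)) hOK.nonneg).sum
  unfold Dat.Qp
  rw [h, hOK.sum_one]

/-- Near times cost entropy. -/
theorem fano (hOK : IsLaw d.P) (i k : ℕ) :
    Pr (d.Qp i) {w | |d.ta w| < (2 : ℝ) ^ (-((i + k : ℕ) : ℤ))} * (k * Real.log 2) ≤
      4 * Real.log 2 + (df d (i + k) - df d i) := by
  classical
  have hQ := Qp_law hOK i
  have h1 := Pool.OCT.ch_exc hQ (fun w : d.Om × d.Om => d.Ti (i + k) w.2)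
    (fun w => ((d.L w.2, d.Ti i w.2), d.Ti (i + k) w.1))
    (fun z => ({z.2 - 1, z.2, z.2 + 1} : Finset ℤ))
    (fun z => Finset.Ico (2 ^ k * z.1.2) (2 ^ k * (z.1.2 + 1)))
    (κ := 3) (L := 2 ^ k) (by norm_num) (one_le_pow₀ (by norm_num))
    (fun z => by
      have : ({z.2 - 1, z.2, z.2 + 1} : Finset ℤ).card ≤ 3 := Finset.card_le_three
      exact_mod_cast this)
    (fun z => by rw [card_blk]; push_cast; exact le_rfl)
    (fun w _ => floor_mem _ i k)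
  have h2 : CH (d.Qp i) (fun w : d.Om × d.Om => d.Ti (i + k) w.2)
      (fun w => ((d.L w.2, d.Ti i w.2), d.Ti (i + k) w.1)) = D d (i + k) - D d i := by
    rw [← CH_pair hOK.nonneg i k]
    exact CH_dbl_2 hOK.nonneg (d.Ti (i + k)) (d.Ti (i + k))
  rw [h2] at h1
  set p := Pr (d.Qp i) {w | |d.ta w| < (2 : ℝ) ^ (-((i + k : ℕ) : ℤ))} with hp
  have h3 : Pr (d.Qp i) {w | d.Ti (i + k) w.2 ∉
      (fun z : (d.Lam × ℤ) × ℤ => ({z.2 - 1, z.2, z.2 + 1} : Finset ℤ))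
        ((d.L w.2, d.Ti i w.2), d.Ti (i + k) w.1)} ≤ 1 - p := by
    have h4 := Pr_compl' hQ.sum_one {w | |d.ta w| < (2 : ℝ) ^ (-((i + k : ℕ) : ℤ))}
    have h5 : Pr (d.Qp i) {w | d.Ti (i + k) w.2 ∉
      (fun z : (d.Lam × ℤ) × ℤ => ({z.2 - 1, z.2, z.2 + 1} : Finset ℤ))
        ((d.L w.2, d.Ti i w.2), d.Ti (i + k) w.1)} ≤
        Pr (d.Qp i) {w | |d.ta w| < (2 : ℝ) ^ (-((i + k : ℕ) : ℤ))}ᶜ := by
      refine Pr_mono' hQ.nonneg fun w _ hw => ?_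
      intro hlt
      apply hw
      have h6 : |d.ta w| < (2 : ℝ) ^ (-((i + k : ℕ) : ℤ)) := hlt
      have h7 : |(2 : ℝ) ^ (i + k) * d.th (d.T w.2) - (2 : ℝ) ^ (i + k) * d.th (d.T w.1)| < 1 := by
        have h8 : (2 : ℝ) ^ (i + k) * d.th (d.T w.2) - (2 : ℝ) ^ (i + k) * d.th (d.T w.1) =
            (2 : ℝ) ^ (i + k) * d.ta w := by
          unfold Dat.ta
          ring
        rw [h8, abs_mul, abs_of_pos (by positivity)]
        have h9 : (2 : ℝ) ^ (i + k) * |d.ta w| <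
            (2 : ℝ) ^ (i + k) * (2 : ℝ) ^ (-((i + k : ℕ) : ℤ)) :=
          mul_lt_mul_of_pos_left h6 (by positivity)
        rw [zpow_neg, zpow_natCast, mul_inv_cancel₀ (by positivity)] at h9
        exact h9
      have h10 := abs_sub_lt_iff.mp h7
      show d.Ti (i + k) w.2 ∈
        ({d.Ti (i + k) w.1 - 1, d.Ti (i + k) w.1, d.Ti (i + k) w.1 + 1} : Finset ℤ)
      have a1 : d.Ti (i + k) w.2 ≤ d.Ti (i + k) w.1 + 1 := by
        show ⌊(2 : ℝ) ^ (i + k) * d.th (d.T w.2)⌋ ≤ ⌊(2 : ℝ) ^ (i + k) * d.th (d.T w.1)⌋ + 1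
        rw [← Int.floor_add_one]
        exact Int.floor_le_floor (by linarith [h10.1])
      have a2 : d.Ti (i + k) w.1 ≤ d.Ti (i + k) w.2 + 1 := by
        show ⌊(2 : ℝ) ^ (i + k) * d.th (d.T w.1)⌋ ≤ ⌊(2 : ℝ) ^ (i + k) * d.th (d.T w.2)⌋ + 1
        rw [← Int.floor_add_one]
        exact Int.floor_le_floor (by linarith [h10.2])
      simp only [Finset.mem_insert, Finset.mem_singleton]
      omega
    linarith
  have hlog : Real.log ((2 : ℝ) ^ k) = k * Real.log 2 := by rw [Real.log_pow]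
  rw [hlog] at h1
  have h4 : 0 ≤ (k : ℝ) * Real.log 2 := mul_nonneg (Nat.cast_nonneg k) (Real.log_nonneg (by norm_num))
  have h5 := mul_le_mul_of_nonneg_right h3 h4
  have h6 : Real.log 3 ≤ 2 * Real.log 2 := by
    rw [← Real.log_rpow (by norm_num)]
    exact Real.log_le_log (by norm_num) (by norm_num)
  have h7 : 0 < Real.log 2 := Real.log_pos (by norm_num)
  unfold df
  push_cast
  nlinarith

theorem tele (g : ℕ → ℝ) {a c : ℕ} (h : a ≤ c) :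
    ∑ i ∈ Finset.Ico a c, (g (i + 1) - g i) = g c - g a := by
  induction c, h using Nat.le_induction with
  | base => simp
  | succ c hc ih =>
    rw [Finset.sum_Ico_succ_top hc, ih]
    ring

theorem tele2 (f : ℕ → ℝ) {F : ℝ} {a c : ℕ} (hac : a ≤ c) (h0 : ∀ i, 0 ≤ f i) (k : ℕ)
    (hF : ∀ i, i < c + k → f i ≤ F) :
    ∑ i ∈ Finset.Ico a c, (f (i + k) - f i) ≤ k * F := by
  induction k with
  | zero => simp
  | succ k ih =>
    have h1 := ih fun i hi => hF i (by omega)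
    have h2 := tele (fun i => f (i + k)) hac
    have h3 : ∑ i ∈ Finset.Ico a c, (f (i + (k + 1)) - f i) =
        ∑ i ∈ Finset.Ico a c, (f (i + 1 + k) - f (i + k)) +
          ∑ i ∈ Finset.Ico a c, (f (i + k) - f i) := by
      rw [← Finset.sum_add_distrib]
      refine Finset.sum_congr rfl fun i _ => ?_
      rw [show i + (k + 1) = i + 1 + k by ring]
      ring
    rw [h3]
    have h4 := hF (c + k) (by omega)
    have h5 := h0 (a + k)
    push_cast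
    rw [h2]
    linarith

theorem df_nonneg {A : ℕ} (hOK : d.OK A) (i : ℕ) : 0 ≤ df d i := by
  have h1 := df_mono (d := d) hOK.law 0 i
  have h2 : df d 0 = 0 := by
    unfold df
    rw [D_zero A hOK]
    simp
  rw [zero_add, h2] at h1
  exact h1

theorem df_le {A : ℕ} (hOK : d.OK A) {ι : ℝ} (h1 : d.H1 ι) {i : ℕ} (hi : i ≤ d.X) :
    df d i ≤ ι * d.X * Real.log 2 := by
  have h2 := df_mono (d := d) hOK.law i (d.X - i)
  rw [Nat.add_sub_cancel' hi] at h2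
  have h3 : df d d.X ≤ ι * d.X * Real.log 2 := by
    unfold df D
    linarith [h1.2]
  linarith

theorem ta_thm {A : ℕ} (hOK : d.OK A) {ι ε κ : ℝ} (hε : 0 < ε) (h1 : d.H1 ι)
    (hι : ι ≤ ε * κ / 64) (hX1 : 32 ≤ κ * d.X) (hX2 : 64 ≤ ε * κ * d.X) :
    TA d ⌊κ * d.X⌋₊ ε := by
  intro i i' hi hi'
  obtain ⟨k, rfl⟩ := Nat.exists_eq_add_of_le (show i ≤ i' by omega)
  have h2 := fano (d := d) hOK.law i k
  have h3 := df_nonneg hOK i
  have h4 := df_le hOK h1 hi'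
  have h5 : 0 < Real.log 2 := Real.log_pos (by norm_num)
  set p := Pr (d.Qp i) {w | |d.ta w| < (2 : ℝ) ^ (-((i + k : ℕ) : ℤ))} with hp
  have h6 : κ * d.X < (⌊κ * d.X⌋₊ : ℝ) + 1 := Nat.lt_floor_add_one _
  have h7 : ⌊κ * d.X⌋₊ ≤ 4 * k + 3 := by omega
  have h8 : (⌊κ * d.X⌋₊ : ℝ) ≤ 4 * k + 3 := by exact_mod_cast h7
  have h9 : κ * d.X / 8 ≤ k := by linarith
  have hX : (0 : ℝ) ≤ d.X := Nat.cast_nonneg _
  have h10 : ι * d.X ≤ ε * κ * d.X / 64 := by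
    have := mul_le_mul_of_nonneg_right hι hX
    linarith
  have h11 : p * (k * Real.log 2) ≤ (ε * k) * Real.log 2 := by
    have h12 : p * (k * Real.log 2) ≤ (4 + ι * d.X) * Real.log 2 := by linarith
    refine h12.trans (mul_le_mul_of_nonneg_right ?_ h5.le)
    have h13 : ε * (κ * d.X / 8) ≤ ε * k := mul_le_mul_of_nonneg_left h9 hε.le
    linarith
  have hk : (0 : ℝ) < k := by linarith
  have h14 : p * (k * Real.log 2) ≤ ε * (k * Real.log 2) := by linarith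
  exact le_of_mul_le_mul_right h14 (by positivity)

theorem tb_thm {A : ℕ} (hOK : d.OK A) {ι ε κ : ℝ} {k : ℕ} (hε : 0 < ε)
    (h1 : d.H1 ι) (hι : ι ≤ ε * κ / 64) (hX1 : 32 ≤ κ * d.X) (hX2 : 64 * k ≤ ε * κ * d.X)
    (hk : 8 ≤ ε * k) (hkX : k ≤ d.X) :
    TB d ⌊κ * d.X⌋₊ k ε := by
  intro a b hab hb
  have h5 : 0 < Real.log 2 := Real.log_pos (by norm_num)
  have hX : (0 : ℝ) ≤ d.X := Nat.cast_nonneg _
  have hk0 : (0 : ℝ) < k := by
    by_contra h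
    have : (k : ℝ) ≤ 0 := not_lt.mp h
    nlinarith
  set p : ℕ → ℝ := fun i => Pr (d.Qp i) {w | |d.ta w| < (2 : ℝ) ^ (-((i : ℤ) + k))} with hp
  have hp1 : ∀ i, p i ≤ 1 := fun i => by
    have h := Pr_compl' (Qp_law (d := d) hOK.law i).sum_one
      {w | |d.ta w| < (2 : ℝ) ^ (-((i : ℤ) + k))}
    have h' := Pr_nonneg (Qp_law (d := d) hOK.law i).nonneg
      {w | |d.ta w| < (2 : ℝ) ^ (-((i : ℤ) + k))}ᶜ
    show Pr (d.Qp i) {w | |d.ta w| < (2 : ℝ) ^ (-((i : ℤ) + k))} ≤ 1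
    linarith
  have hp2 : ∀ i, p i * (k * Real.log 2) ≤ 4 * Real.log 2 + (df d (i + k) - df d i) := by
    intro i
    have h := fano (d := d) hOK.law i k
    have h' : (-((i + k : ℕ) : ℤ)) = (-((i : ℤ) + k)) := by push_cast; ring
    rw [h'] at h
    exact h
  show ∑ i ∈ Finset.Ico a b, p i ≤ ε * ((b : ℝ) - a)
  set F : ℝ := ι * d.X * Real.log 2 with hF
  -- the cut
  set c : ℕ := max a (min b (d.X - k)) with hc
  have hac : a ≤ c := le_max_left _ _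
  have hcb : c ≤ b := max_le (by omega) (min_le_left _ _)
  have hbc : b ≤ c + k := by
    have : min b (d.X - k) ≤ c := le_max_right _ _
    omega
  have hsum : ∑ i ∈ Finset.Ico a b, p i = ∑ i ∈ Finset.Ico a c, p i + ∑ i ∈ Finset.Ico c b, p i :=
    (Finset.sum_Ico_consecutive p hac hcb).symm
  have hs2 : ∑ i ∈ Finset.Ico c b, p i ≤ k := by
    calc ∑ i ∈ Finset.Ico c b, p i ≤ ∑ _i ∈ Finset.Ico c b, (1 : ℝ) :=
          Finset.sum_le_sum fun i _ => hp1 i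
      _ = ((b - c : ℕ) : ℝ) := by simp
      _ ≤ k := by exact_mod_cast (by omega : b - c ≤ k)
  have hs1 : (∑ i ∈ Finset.Ico a c, p i) * (k * Real.log 2) ≤
      4 * Real.log 2 * ((b : ℝ) - a) + k * F := by
    rw [Finset.sum_mul]
    have h2 : ∑ i ∈ Finset.Ico a c, p i * (k * Real.log 2) ≤
        ∑ i ∈ Finset.Ico a c, (4 * Real.log 2 + (df d (i + k) - df d i)) :=
      Finset.sum_le_sum fun i _ => hp2 i
    have h3 : ∑ i ∈ Finset.Ico a c, (df d (i + k) - df d i) ≤ k * F := by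
      rcases (le_total a (min b (d.X - k))) with h | h
      · refine tele2 (df d) hac (df_nonneg hOK) k fun i hi => ?_
        refine df_le hOK h1 ?_
        have : c = min b (d.X - k) := max_eq_right h
        omega
      · have : c = a := max_eq_left h
        rw [this, Finset.Ico_self, Finset.sum_empty]
        have h4 : 0 ≤ F := (df_nonneg hOK d.X).trans (df_le hOK h1 le_rfl)
        positivity
    have h4 : ∑ i ∈ Finset.Ico a c, (4 * Real.log 2 + (df d (i + k) - df d i)) =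
        4 * Real.log 2 * ((c : ℝ) - a) + ∑ i ∈ Finset.Ico a c, (df d (i + k) - df d i) := by
      rw [Finset.sum_add_distrib, Finset.sum_const, Nat.card_Ico, nsmul_eq_mul,
        Nat.cast_sub hac]
      ring
    rw [h4] at h2
    have h5' : (c : ℝ) ≤ b := by exact_mod_cast hcb
    have h6 : 4 * Real.log 2 * ((c : ℝ) - a) ≤ 4 * Real.log 2 * ((b : ℝ) - a) :=
      mul_le_mul_of_nonneg_left (by linarith) (by positivity)
    linarith
  have hs3 : (∑ i ∈ Finset.Ico a c, p i) * k ≤ 4 * ((b : ℝ) - a) + k * (ι * d.X) := by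
    have h2 : ((∑ i ∈ Finset.Ico a c, p i) * k) * Real.log 2 ≤
        (4 * ((b : ℝ) - a) + k * (ι * d.X)) * Real.log 2 := by
      rw [hF] at hs1
      linarith
    exact le_of_mul_le_mul_right h2 h5
  have h6 : κ * d.X < (⌊κ * d.X⌋₊ : ℝ) + 1 := Nat.lt_floor_add_one _
  have h7 : ⌊κ * d.X⌋₊ + 8 * a ≤ 8 * b + 7 := by omega
  have h8 : (⌊κ * d.X⌋₊ : ℝ) + 8 * a ≤ 8 * b + 7 := by exact_mod_cast h7
  have h9 : κ * d.X / 16 ≤ (b : ℝ) - a := by linarith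
  have h10 : ι * d.X ≤ ε * κ * d.X / 64 := by
    have := mul_le_mul_of_nonneg_right hι hX
    linarith
  have h11 : ε * (κ * d.X / 16) ≤ ε * ((b : ℝ) - a) := mul_le_mul_of_nonneg_left h9 hε.le
  have hba : 0 ≤ (b : ℝ) - a := by linarith
  have h12 : (∑ i ∈ Finset.Ico a c, p i) ≤ ε / 2 * ((b : ℝ) - a) + ε / 4 * ((b : ℝ) - a) := by
    refine le_of_mul_le_mul_right ?_ hk0
    have h13 : 4 * ((b : ℝ) - a) ≤ ε * k / 2 * ((b : ℝ) - a) :=
      mul_le_mul_of_nonneg_right (by linarith) hba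
    have h14 : k * (ι * d.X) ≤ k * (ε / 4 * ((b : ℝ) - a)) :=
      mul_le_mul_of_nonneg_left (by linarith) hk0.le
    nlinarith
  rw [hsum]
  linarith

end TIM

/-- **TIM.** -/
theorem tim_thm : TIMStmt := by
  intro ε hε
  refine ⟨⌈8 / ε⌉₊, fun κ hκ => ⟨ε * κ / 64, ⌈(64 * (⌈8 / ε⌉₊ : ℝ) + 64) / (ε * κ)⌉₊ +
    ⌈32 / κ⌉₊ + ⌈8 / ε⌉₊, by positivity, fun d A hOK hX h1 => ?_⟩⟩
  set k := ⌈8 / ε⌉₊ with hk
  have hk1 : 8 / ε ≤ k := Nat.le_ceil _
  have hk2 : 8 ≤ ε * k := by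
    rw [div_le_iff₀ hε] at hk1
    linarith
  have hX' : ((⌈(64 * (k : ℝ) + 64) / (ε * κ)⌉₊ + ⌈32 / κ⌉₊ + k : ℕ) : ℝ) ≤ d.X := by
    exact_mod_cast hX
  push_cast at hX'
  have h2 : (64 * (k : ℝ) + 64) / (ε * κ) ≤ ⌈(64 * (k : ℝ) + 64) / (ε * κ)⌉₊ := Nat.le_ceil _
  have h3 : 32 / κ ≤ (⌈32 / κ⌉₊ : ℝ) := Nat.le_ceil _
  have h4 : (0 : ℝ) ≤ ⌈32 / κ⌉₊ := Nat.cast_nonneg _
  have h5 : (0 : ℝ) ≤ ⌈(64 * (k : ℝ) + 64) / (ε * κ)⌉₊ := Nat.cast_nonneg _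
  have h6 : (0 : ℝ) ≤ k := Nat.cast_nonneg _
  have hX1 : 32 ≤ κ * d.X := by
    have : 32 / κ ≤ d.X := by linarith
    rw [div_le_iff₀ hκ] at this
    linarith
  have hX2 : 64 * (k : ℝ) + 64 ≤ ε * κ * d.X := by
    have : (64 * (k : ℝ) + 64) / (ε * κ) ≤ d.X := by linarith
    rw [div_le_iff₀ (by positivity)] at this
    linarith
  exact ⟨TIM.ta_thm hOK hε h1 le_rfl hX1 (by linarith),
    TIM.tb_thm hOK hε h1 le_rfl hX1 (by linarith) hk2 (by omega)⟩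

end Pool.OC
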